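import Pool.Agent.H295R2.Nic.Defs
import Pool.Agent.H381R2.HR.A1

/-! N4: the unconditional bound `|ψ(x) - x| ≤ C x / log x` for all real `x ≥ 2`. -/

set_option autoImplicit false

namespace Pool.Agent.H20R2.NT

open Real

theorem psiLog : Pool.Agent.H295R2.Nic.PsiLog := by
  obtain ⟨N₁, hN₁⟩ := Pool.Agent.H381R2.HR.A1aux.large
  have hM0 : 0 ≤ Chebyshev.psi ((max N₁ 4 : ℕ) : ℝ) := Chebyshev.psi_nonneg _
  have hA0 : (0 : ℝ) ≤ ((max N₁ 4 : ℕ) : ℝ) := Nat.cast_nonneg _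
  refine ⟨327 + Chebyshev.psi ((max N₁ 4 : ℕ) : ℝ) + ((max N₁ 4 : ℕ) : ℝ), fun x hx => ?_⟩
  have hx0 : 0 < x := by linarith
  have hlog : 0 < Real.log x := Real.log_pos (by linarith)
  have h1 : 1 ≤ x / Real.log x := by
    rw [le_div_iff₀ hlog, one_mul]
    have := Real.log_le_sub_one_of_pos hx0
    linarith
  have e : ∀ C : ℝ, C * x / Real.log x = C * (x / Real.log x) := fun C => by ring
  rw [e]
  rcases le_or_gt ((max N₁ 4 : ℕ) : ℝ) x with h | h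
  · have hN : max N₁ 4 ≤ ⌊x⌋₊ := Nat.le_floor h
    have hN1 : N₁ ≤ ⌊x⌋₊ := (le_max_left _ _).trans hN
    have hN4 : 4 ≤ ⌊x⌋₊ := (le_max_right _ _).trans hN
    have k1 := hN₁ _ hN1
    rw [← Chebyshev.psi_eq_psi_coe_floor x] at k1
    have k2 : (⌊x⌋₊ : ℝ) ≤ x := Nat.floor_le hx0.le
    have k3 : x < (⌊x⌋₊ : ℝ) + 1 := Nat.lt_floor_add_one x
    have k4 : (4 : ℝ) ≤ (⌊x⌋₊ : ℝ) := by exact_mod_cast hN4
    have k5 : √x ≤ (⌊x⌋₊ : ℝ) := by
      rw [Real.sqrt_le_left (by linarith)]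
      nlinarith
    have k6 : Real.log x / 2 ≤ Real.log (⌊x⌋₊ : ℝ) := by
      rw [← Real.log_sqrt hx0.le]
      exact Real.log_le_log (Real.sqrt_pos.2 hx0) k5
    have k7 : (⌊x⌋₊ : ℝ) / Real.log (⌊x⌋₊ : ℝ) ≤ x / (Real.log x / 2) :=
      div_le_div₀ hx0.le k2 (by linarith) k6
    have k8 : x / (Real.log x / 2) = 2 * (x / Real.log x) := by
      field_simp
    rw [k8] at k7
    have k9 : |Chebyshev.psi x - x| ≤ |Chebyshev.psi x - (⌊x⌋₊ : ℝ)| + 1 := by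
      have : Chebyshev.psi x - x = (Chebyshev.psi x - (⌊x⌋₊ : ℝ)) + ((⌊x⌋₊ : ℝ) - x) := by ring
      rw [this]
      refine (abs_add_le _ _).trans ?_
      have : |(⌊x⌋₊ : ℝ) - x| ≤ 1 := by
        rw [abs_le]; constructor <;> linarith
      linarith
    nlinarith
  · have k1 : Chebyshev.psi x ≤ Chebyshev.psi ((max N₁ 4 : ℕ) : ℝ) := Chebyshev.psi_mono h.le
    have k2 := Chebyshev.psi_nonneg x
    have k3 : |Chebyshev.psi x - x| ≤
        Chebyshev.psi ((max N₁ 4 : ℕ) : ℝ) + ((max N₁ 4 : ℕ) : ℝ) := by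
      rw [abs_le]; constructor <;> linarith
    nlinarith

end Pool.Agent.H20R2.NT
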